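import Pool.Agent.H30TR.Small
import Pool.Graph.R_seed8.Results.MP_f7849a_an.NegativeDerivative

/-!
MP_f7849a_an, Q1: the derivative can be negative in convex domains (all sufficiently thin
pyramids); it is positive in all domains of diameter at most one.
-/

set_option autoImplicit false

open Set Topology MeasureTheory Metric Filter

namespace Pool.Agent.Results.MP_f7849a_an.ConvexNegative

open Pool.Agent.Results.MP_f7849a_an.NegativeDerivative (IsSolution exitDist surface
  isSolution_of_avg solution_unique)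

/-- three-dimensional Euclidean space -/
abbrev E3 : Type := EuclideanSpace ℝ (Fin 3)

/-- the unit sphere -/
abbrev S2 : Type := sphere (0 : E3) 1

/-- the open pyramid of length ten with apex at the origin, axis the first coordinate axis and
slope `ρ` -/
def pyramid (ρ : ℝ) : Set E3 := {p | 0 < p 0 ∧ p 0 < 10 ∧ |p 1| < ρ * p 0 ∧ |p 2| < ρ * p 0}

/-- the direction of the axis -/
noncomputable def axis : S2 := ⟨EuclideanSpace.single 0 1, by simp⟩

/-- `lam ↦ M_lam (r, ω)` has the derivative `d` at `lam = 1`, for the solutions `M_lam` of the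
integral equation in `V` -/
def DerivIs (V : Set E3) (r : E3) (ω : S2) (d : ℝ) : Prop :=
  ∀ M : ℝ → E3 × S2 → ℝ, (∀ lam : ℝ, 0 < lam → IsSolution V lam (M lam)) →
    HasDerivAt (fun lam => M lam (r, ω)) d 1

theorem exists_diam {V : Set E3} (hb : Bornology.IsBounded V) :
    ∃ R, Pool.Agent.R239.Transp.DiamLt V R := by
  obtain ⟨C, hC⟩ := Metric.isBounded_iff.1 hb
  refine ⟨max C 0 + 1, by positivity, fun p hp q hq => ?_⟩
  have := hC hp hq
  have := le_max_left C 0
  linarith

theorem derivIs {V : Set E3} {R : ℝ} (hV : Pool.Agent.R239.Transp.DiamLt V R) (hVo : IsOpen V)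
    {P : ℝ → Prop} {r : E3} (hr : r ∈ V) (ω : S2)
    (hsign : ∀ m md : E3 → ℝ, Pool.Agent.R239.Transp.IsAvg V 1 m → (∀ r, 0 ≤ m r) →
      Measurable md → (∃ C, ∀ r, |md r| ≤ C) →
      (∀ r, md r = Pool.Agent.R239.Transp.op V Pool.Agent.R239.Transp.kd m r +
        Pool.Agent.R239.Transp.op V (Pool.Agent.R239.Transp.kl 1) md r) →
      P (Pool.Agent.R239.Transp.ray V Pool.Agent.R239.Transp.kd m r ω +
        Pool.Agent.R239.Transp.ray V (Pool.Agent.R239.Transp.kl 1) md r ω)) :
    ∃ d : ℝ, P d ∧ DerivIs V r ω d := by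
  have hex : ∀ lam : ℝ, 0 < lam → ∃ m, Pool.Agent.R239.Transp.IsAvg V lam m ∧ ∀ r, 0 ≤ m r :=
    fun lam h => Pool.Agent.R239.Transp.exists_avg hV hVo h
  choose! m hm hm0 using hex
  obtain ⟨md, md1, md2, md3, md4⟩ := Pool.Agent.R239.Transp.deriv_main hV hVo m hm
  refine ⟨_, hsign (m 1) md (hm 1 one_pos) (hm0 1 one_pos) md1 md2 md3, fun M hM => ?_⟩
  have h1 := (md4 r ω).const_add (1 - Real.exp (-Pool.Agent.R239.Transp.exitD V r ω))
  refine h1.congr_of_eventuallyEq ?_
  filter_upwards [lt_mem_nhds (show (0 : ℝ) < 1 by norm_num)] with lam hlam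
  exact solution_unique hV hVo hlam (hm lam hlam) (hM lam hlam) r hr ω

/-- (1) For every bounded open set `V` and every `lam > 0` the integral equation has a bounded
measurable solution on `V × S²`, unique on `V × S²`.
(2) For all `0 < ρ ≤ 10⁻⁶` the pyramid of slope `ρ` is a convex bounded open set, and the
`lam`-derivative of the solution at `lam = 1` at the point `(1/10, 0, 0)` in the direction of the
axis exists and is negative.
(3) For every open set `V` of diameter at most one the `lam`-derivative at `lam = 1` exists and is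
positive at every point of `V` in every direction. -/
theorem result :
    (∀ V : Set E3, IsOpen V → Bornology.IsBounded V → ∀ lam : ℝ, 0 < lam →
      (∃ M, IsSolution V lam M) ∧
      ∀ M M', IsSolution V lam M → IsSolution V lam M' → ∀ r ∈ V, ∀ ω : S2,
        M (r, ω) = M' (r, ω)) ∧
    (∀ ρ : ℝ, 0 < ρ → ρ ≤ 1 / 10 ^ 6 →
      Convex ℝ (pyramid ρ) ∧ IsOpen (pyramid ρ) ∧ Bornology.IsBounded (pyramid ρ) ∧
      (1 / 10 : ℝ) • (axis : E3) ∈ pyramid ρ ∧
      ∃ d : ℝ, d < 0 ∧ DerivIs (pyramid ρ) ((1 / 10 : ℝ) • (axis : E3)) axis d) ∧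
    (∀ V : Set E3, IsOpen V → (∀ p ∈ V, ∀ q ∈ V, dist p q ≤ 1) →
      ∀ r ∈ V, ∀ ω : S2, ∃ d : ℝ, 0 < d ∧ DerivIs V r ω d) := by
  refine ⟨?_, ?_, ?_⟩
  · intro V hVo hb lam hlam
    obtain ⟨R, hV⟩ := exists_diam hb
    obtain ⟨m, hm, -⟩ := Pool.Agent.R239.Transp.exists_avg hV hVo hlam
    refine ⟨⟨_, isSolution_of_avg hV hVo hm⟩, fun M M' hM hM' r hr ω => ?_⟩
    rw [solution_unique hV hVo hlam hm hM r hr ω, solution_unique hV hVo hlam hm hM' r hr ω]
  · intro ρ hρ hρ1
    have hρ2 : ρ ≤ 1 / 100 := by linarith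
    have hV := Pool.Agent.H30TR.diam_pyr hρ hρ2
    have hVo := Pool.Agent.H30TR.isOpen_pyr ρ
    have hr : (1 / 10 : ℝ) • (axis : E3) ∈ pyramid ρ := by
      obtain ⟨h0, h1, h2⟩ := Pool.Agent.H30TR.axis_coord (1 / 10)
      refine ⟨?_, ?_, ?_, ?_⟩
      · exact lt_of_lt_of_eq (by norm_num) h0.symm
      · exact lt_of_eq_of_lt h0 (by norm_num)
      · change |((1 / 10 : ℝ) • (Pool.Agent.R239.Transp.w0 : E3)) 1| <
          ρ * ((1 / 10 : ℝ) • (Pool.Agent.R239.Transp.w0 : E3)) 0
        rw [h0, h1, abs_zero]; positivity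
      · change |((1 / 10 : ℝ) • (Pool.Agent.R239.Transp.w0 : E3)) 2| <
          ρ * ((1 / 10 : ℝ) • (Pool.Agent.R239.Transp.w0 : E3)) 0
        rw [h0, h2, abs_zero]; positivity
    refine ⟨Pool.Agent.H30TR.convex_pyr ρ, hVo, ?_, hr, ?_⟩
    · rw [Metric.isBounded_iff]
      exact ⟨30, fun p hp q hq => (hV.2 p hp q hq).le⟩
    · exact derivIs (P := fun d => d < 0) hV hVo hr axis
        (fun m md h1 h2 h3 h4 h5 => Pool.Agent.H30TR.sign_pyr hρ hρ1 m md h1 h2 h3 h4 h5)
  · intro V hVo hd r hr ω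
    have hb : Bornology.IsBounded V := Metric.isBounded_iff.2 ⟨1, fun p hp q hq => hd p hp q hq⟩
    obtain ⟨R, hV⟩ := exists_diam hb
    exact derivIs (P := fun d => 0 < d) hV hVo hr ω
      (fun m md h1 h2 h3 h4 h5 => Pool.Agent.H30TR.sign_small hV hVo hd m md h1 h2 h3 h4 h5 hr ω)

end Pool.Agent.Results.MP_f7849a_an.ConvexNegative
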